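import Mathlib

/-!
# Project gb: heights and leading coefficients (B3), dimension of `R(X)` (B4)

For an ideal `J` of `R[X]`, `R` Noetherian, the height of `J` is at most the height of the ideal of
leading coefficients of `J`. In particular an ideal of height greater than `dim R` contains a monic
polynomial, and the localization of `R[X]` at the monic polynomials has dimension at most `dim R`.
-/

open Polynomial Ideal

namespace GB

section Noeth

variable {R : Type*} [CommRing R] [IsNoetherianRing R]

attribute [local instance] Polynomial.algebra Polynomial.isLocalization in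
/-- the height of a prime ideal of `R[X]` is at most one more than the height of its contraction. -/
theorem LC_height_le_add_one (P : Ideal R[X]) [P.IsPrime] :
    P.height ≤ (P.comap C).height + 1 := by
  set p : Ideal R := P.comap C with hp
  have hpp : p.IsPrime := Ideal.IsPrime.comap C
  have hover : P.LiesOver p := ⟨rfl⟩
  let Rₚ := Localization.AtPrime p
  set p' : Ideal Rₚ := p.map (algebraMap R Rₚ) with p'_def
  have hmax : p'.IsMaximal := by
    rw [p'_def, Localization.AtPrime.map_eq_maximalIdeal]
    exact IsLocalRing.maximalIdeal.isMaximal Rₚ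
  let P' : Ideal Rₚ[X] := P.map (algebraMap R[X] Rₚ[X])
  have disj : Disjoint (p.primeCompl.map C : Set R[X]) P := by
    refine Set.disjoint_left.mpr fun a ⟨b, hb⟩ ha ↦ hb.1 ?_
    change C b ∈ P
    rw [show C b = a from hb.2]
    exact ha
  have hP' : P'.IsPrime := IsLocalization.isPrime_of_isPrime_disjoint
    (Submonoid.map C p.primeCompl) Rₚ[X] P inferInstance disj
  have hl' : P'.LiesOver p' := IsLocalization.liesOver_of_isPrime_of_disjoint p.primeCompl _ _ disj
  have eq1 : p.height = p'.height := by
    rw [IsLocalization.height_map_of_disjoint p.primeCompl]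
    exact Disjoint.symm <| Set.disjoint_left.mpr fun _ a b ↦ b a
  have eq2 : P.height = P'.height := by
    rw [IsLocalization.height_map_of_disjoint (Submonoid.map C <| p.primeCompl) _ disj]
  obtain ⟨M, hM, hle⟩ := P'.exists_le_maximal hP'.ne_top
  have hlM : M.LiesOver p' := by
    refine ⟨hmax.eq_of_le ?_ ?_⟩
    · exact (Ideal.IsPrime.comap (algebraMap Rₚ Rₚ[X]) (K := M) (hK := hM.isPrime)).ne_top
    · rw [hl'.over]
      exact Ideal.comap_mono hle
  rw [eq1, eq2]
  exact (Ideal.height_mono hle).trans (Polynomial.height_eq_height_add_one p' M).le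

/-- extension of a prime ideal does not increase the height. -/
theorem LC_height_map_le (p : Ideal R) [p.IsPrime] : (p.map C).height ≤ p.height := by
  have hP : (p.map (C : R →+* R[X])).IsPrime := inferInstance
  have hover : (p.map (C : R →+* R[X])).LiesOver p := by
    refine ⟨?_⟩
    ext x
    change x ∈ p ↔ C x ∈ p.map C
    rw [Ideal.mem_map_C_iff]
    constructor
    · intro hx n
      rw [coeff_C]
      split_ifs
      · exact hx
      · exact p.zero_mem
    · intro hx
      simpa using hx 0
  have h := Ideal.height_le_height_add_of_liesOver p (p.map (C : R →+* R[X]))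
  have h0 : ((p.map (C : R →+* R[X])).map
      (Ideal.Quotient.mk (p.map (algebraMap R R[X])))).height = 0 := by
    have : (p.map (C : R →+* R[X])).map (Ideal.Quotient.mk (p.map (algebraMap R R[X]))) = ⊥ := by
      exact Ideal.map_quotient_self _
    rw [this]
    have : Nontrivial (R[X] ⧸ p.map (algebraMap R R[X])) :=
      Ideal.Quotient.nontrivial_iff.2 hP.ne_top
    exact Ideal.height_bot
  rw [h0, add_zero] at h
  exact h

/-- a prime ideal of `R` that contains the leading coefficients of the prime ideal `P` is at least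
as high as `P`. -/
theorem LC_prime (P : Ideal R[X]) [P.IsPrime] (q : Ideal R) [q.IsPrime]
    (h : P.leadingCoeff ≤ q) : P.height ≤ q.height := by
  have hpp : (P.comap C).IsPrime := Ideal.IsPrime.comap C
  have hle : P.comap C ≤ P.leadingCoeff := by
    intro x hx
    exact (P.mem_leadingCoeff x).2 ⟨C x, hx, leadingCoeff_C x⟩
  by_cases hc : P.comap C = P.leadingCoeff
  · have h1 : map C (comap C P) = P := Ideal.map_C_comap_of_comap_eq_leadingCoeff P hc
    calc P.height = (map C (comap C P)).height := by rw [h1]
      _ ≤ (comap C P).height := LC_height_map_le _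
      _ ≤ q.height := Ideal.height_mono (hle.trans h)
  · have hlt : comap C P < q := lt_of_lt_of_le (lt_of_le_of_ne hle hc) h
    exact (LC_height_le_add_one P).trans (Ideal.height_add_one_le_of_lt_of_isPrime hlt)

/-- if a prime ideal `q` contains the leading coefficients of `J`, it contains the leading
coefficients of a minimal prime ideal over `J`. -/
theorem LC_exists_minimal (J : Ideal R[X]) (q : Ideal R) [hq : q.IsPrime]
    (h : J.leadingCoeff ≤ q) : ∃ P ∈ J.minimalPrimes, P.leadingCoeff ≤ q := by
  classical
  by_contra! hcon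
  have hfin : J.minimalPrimes.Finite := J.finite_minimalPrimes_of_isNoetherianRing R[X]
  have hex : ∀ P : Ideal R[X], ∃ f : R[X], P ∈ J.minimalPrimes → f ∈ P ∧ f.leadingCoeff ∉ q := by
    intro P
    by_cases hP : P ∈ J.minimalPrimes
    · have h1 := hcon P hP
      rw [SetLike.not_le_iff_exists] at h1
      obtain ⟨x, hx, hxq⟩ := h1
      obtain ⟨f, hf, rfl⟩ := (P.mem_leadingCoeff x).1 hx
      exact ⟨f, fun _ => ⟨hf, hxq⟩⟩
    · exact ⟨0, fun h' => absurd h' hP⟩
  choose f hf using hex
  set g : R[X] := ∏ P ∈ hfin.toFinset, f P with hg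
  have hprod : ∏ P ∈ hfin.toFinset, (f P).leadingCoeff ∉ q := by
    intro hmem
    obtain ⟨P, hP, hP2⟩ := (Ideal.IsPrime.prod_mem_iff).1 hmem
    exact (hf P (hfin.mem_toFinset.1 hP)).2 hP2
  have hne : ∏ P ∈ hfin.toFinset, (f P).leadingCoeff ≠ 0 := fun h0 =>
    hprod (h0 ▸ q.zero_mem)
  have hlc : g.leadingCoeff = ∏ P ∈ hfin.toFinset, (f P).leadingCoeff :=
    Polynomial.leadingCoeff_prod' _ _ hne
  have hgrad : g ∈ J.radical := by
    rw [← Ideal.sInf_minimalPrimes]
    rw [Ideal.mem_sInf]
    intro P hP
    exact Ideal.mem_of_dvd P (Finset.dvd_prod_of_mem f (hfin.mem_toFinset.2 hP)) (hf P hP).1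
  obtain ⟨e, he⟩ := hgrad
  have hpow : g.leadingCoeff ^ e ∉ q := by
    rw [hlc]
    exact fun h' => hprod (hq.mem_of_pow_mem _ h')
  have hlc2 : (g ^ e).leadingCoeff = g.leadingCoeff ^ e :=
    Polynomial.leadingCoeff_pow' (fun h0 => hpow (h0 ▸ q.zero_mem))
  exact hpow (hlc2 ▸ h ((J.mem_leadingCoeff _).2 ⟨g ^ e, he, rfl⟩))

/-- B3: a prime ideal of `R` that contains the leading coefficients of `J` is at least as high
as `J`. -/
theorem LC_height_le (J : Ideal R[X]) (q : Ideal R) [q.IsPrime] (h : J.leadingCoeff ≤ q) :
    J.height ≤ q.height := by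
  obtain ⟨P, hP, hPq⟩ := LC_exists_minimal J q h
  have hPp : P.IsPrime := hP.1.1
  exact (Ideal.height_mono hP.1.2).trans (LC_prime P q hPq)

/-- B3: the height of an ideal of `R[X]` is at most the height of its ideal of leading
coefficients. -/
theorem LC (J : Ideal R[X]) : J.height ≤ J.leadingCoeff.height := by
  rw [Ideal.height_eq_inf_minimalPrimes J.leadingCoeff]
  refine le_iInf₂ fun q hq => ?_
  have hqp : q.IsPrime := hq.1.1
  exact LC_height_le J q hq.1.2

/-- an ideal of `R[X]` which is higher than `dim R` contains a monic polynomial. -/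
theorem LC_monic (J : Ideal R[X]) (h : ringKrullDim R < J.height) : ∃ f ∈ J, f.Monic := by
  have htop : J.leadingCoeff = ⊤ := by
    by_contra hne
    have h1 := Ideal.height_le_ringKrullDim_of_ne_top hne
    have h2 : (J.height : WithBot ℕ∞) ≤ (J.leadingCoeff.height : WithBot ℕ∞) :=
      WithBot.coe_le_coe.2 (LC J)
    exact absurd (h2.trans h1) (not_le.2 h)
  have h1 : (1 : R) ∈ J.leadingCoeff := htop ▸ Submodule.mem_top
  obtain ⟨f, hf, hf1⟩ := (J.mem_leadingCoeff 1).1 h1
  exact ⟨f, hf, hf1⟩

/-- B4: the localization of `R[X]` at (a submonoid containing) the monic polynomials has dimension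
at most `dim R`. -/
theorem LC_dim_localization (W : Submonoid R[X]) (hW : ∀ f : R[X], f.Monic → f ∈ W)
    (S : Type*) [CommRing S] [Algebra R[X] S] [IsLocalization W S] :
    ringKrullDim S ≤ ringKrullDim R := by
  rw [ringKrullDim_le_iff_height_le]
  intro Q hQ
  have hP : (Q.under R[X]).IsPrime := Ideal.IsPrime.under _ _
  have h1 : (Q.under R[X]).height = Q.height := IsLocalization.height_under W Q
  rw [← h1]
  by_contra hlt
  rw [not_le] at hlt
  obtain ⟨f, hf, hfm⟩ := LC_monic _ hlt
  have hu : IsUnit (algebraMap R[X] S f) := IsLocalization.map_units S ⟨f, hW f hfm⟩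
  exact hQ.ne_top (Ideal.eq_top_of_isUnit_mem _ hf hu)

end Noeth

end GB
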