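import Pool.Agent.helper42.GB.RC
import Pool.Agent.helper70.GB.SpecF

/-!
# Project gb: CS (Roitman reduction in the form of SpecF) and LF (lifting modulo constants)
-/

open Polynomial

namespace GB

universe u

theorem CS_append {A : Type*} {m k : ℕ} (w : Fin m → A) (c : Fin k → A) :
    Fin.append w c = Sum.elim w c ∘ finSumFinEquiv.symm := by
  ext1 i
  obtain ⟨i, rfl⟩ := finSumFinEquiv.surjective i
  rw [Function.comp_apply, Equiv.symm_apply_apply]
  cases i with
  | inl i => simp [finSumFinEquiv]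
  | inr i => simp [finSumFinEquiv]

theorem LF : LF_stmt.{u} := by
  intro A _ k c w w' h
  rw [CS_append, CS_append]
  exact (E4 (Ideal.Quotient.mk (Ideal.span (Set.range c))) Ideal.Quotient.mk_surjective c
    (by rw [Ideal.mk_ker]) w w' h).comp_equiv finSumFinEquiv.symm

theorem CS (h : RCS_stmt.{u}) : CS_stmt.{u} := by
  intro R _ _ _ k hdim v hv
  obtain ⟨w, c, h1, h2, h3⟩ := h k R hdim (v ∘ finSumFinEquiv) (hv.comp_equiv _)
  refine ⟨w, c, h2, h3, ?_⟩
  rw [CS_append]
  have h4 := h1.comp_equiv finSumFinEquiv.symm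
  have h5 : (v ∘ finSumFinEquiv) ∘ (finSumFinEquiv (m := 3) (n := k)).symm = v := by
    ext1 i
    simp
  rwa [h5] at h4

end GB
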