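import Pool.Agent.helper65.GB.Elem

/-!
# Project gb: E4, lifting of elementary equivalence modulo constant entries
-/

open Matrix

namespace GB

variable {A B : Type*} [CommRing A] [CommRing B] {ι κ : Type*} [Fintype ι] [DecidableEq ι]
  [Fintype κ] [DecidableEq κ]

/-- elementary equivalence of the first block. -/
theorem EEq.sumElim_left {u u' : ι → A} (h : EEq u u') (c : κ → A) :
    EEq (Sum.elim u c) (Sum.elim u' c) := by
  obtain ⟨M, hM, rfl⟩ := h
  refine ⟨fromBlocks M 0 0 1, E_blocks_left hM, ?_⟩
  ext j
  cases j with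
  | inl j => simp [Matrix.vecMul, dotProduct, Fintype.sum_sum_type, fromBlocks]
  | inr j => simp [Matrix.vecMul, dotProduct, Fintype.sum_sum_type, fromBlocks, Matrix.one_apply]

/-- add combinations of the second block to the first one. -/
theorem EEq_sumElim_add (u : ι → A) (c : κ → A) (Y : Matrix κ ι A) :
    EEq (Sum.elim u c) (Sum.elim (u + c ᵥ* Y) c) := by
  refine ⟨fromBlocks 1 0 Y 1, E_blocks_lower Y, ?_⟩
  ext j
  cases j with
  | inl j =>
    simp [Matrix.vecMul, dotProduct, Fintype.sum_sum_type, fromBlocks, Matrix.one_apply]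
  | inr j => simp [Matrix.vecMul, dotProduct, Fintype.sum_sum_type, fromBlocks, Matrix.one_apply]

/-- E4: if `u` and `u'` are elementary equivalent modulo the ideal generated by the entries of `c`,
then `(u, c)` and `(u', c)` are elementary equivalent. -/
theorem E4 (f : A →+* B) (hf : Function.Surjective f) (c : κ → A)
    (hker : RingHom.ker f ≤ Ideal.span (Set.range c)) (u u' : ι → A)
    (h : EEq (fun i => f (u i)) (fun i => f (u' i))) :
    EEq (Sum.elim u c) (Sum.elim u' c) := by
  obtain ⟨w, hw, hwu⟩ := EEq_lift f hf h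
  refine (EEq.sumElim_left hw c).trans ?_
  have h1 : ∀ i, ∃ y : κ → A, ∑ k, y k * c k = u' i - w i := by
    intro i
    have h2 : u' i - w i ∈ Ideal.span (Set.range c) := by
      refine hker ?_
      rw [RingHom.mem_ker, map_sub, hwu i, sub_self]
    exact Ideal.mem_span_range_iff_exists_fun.1 h2
  choose y hy using h1
  have h3 := EEq_sumElim_add w c (Matrix.of fun k i => y i k)
  have h4 : w + c ᵥ* (Matrix.of fun k i => y i k) = u' := by
    ext i
    have : (c ᵥ* (Matrix.of fun k i => y i k)) i = ∑ k, y i k * c k := by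
      simp only [Matrix.vecMul, dotProduct, Matrix.of_apply]
      exact Finset.sum_congr rfl fun k _ => mul_comm _ _
    rw [Pi.add_apply, this, hy i]
    ring
  rwa [h4] at h3

end GB
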