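import Pool.Agent.helper42.GB.CS
import Pool.Agent.helper65.GB.GP
import Pool.Agent.helper44.GB.O2
import Pool.Agent.helper35.GB.MON
import Pool.Agent.helper29.GB.TA
import Pool.Agent.helper78.GB.BP
import Pool.Agent.helper1.GB.RS
import Pool.Agent.helper80.GB.RL
import Pool.Agent.helper16.GB.RF

/-!
# Project gb: parts R.2, R.3, assembly: Theorem A and the Roitman reduction without hypotheses
-/

open Polynomial

namespace GB

universe u

theorem GPs : GP_stmt.{u} := fun _ _ _ _ _ x s => GP x s

theorem O2s : O2_stmt.{u} := by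
  intro A _ ι _ _ h3 v hv i l hil a b c h
  exact eEq_sq_mul_of_entry v hv h3 i l hil.symm a b c (by rw [h]; ring)

theorem TAs : TA_stmt.{u} := TA GPs MON

theorem RCs : RC_stmt.{u} := RC TAs BP BQ (RS TAs GPs) (RL GPs O2s) (RF O2s)

/-- Roitman reduction, without hypotheses. -/
theorem CSs : CS_stmt.{u} := CS (RCS RCs)

end GB
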