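import Pool.Agent.helper42.GB.SpecR
import Pool.Agent.helper42.GB.E4

/-!
# Project gb: RC (Roitman reduction, one constant) and RCS (all constants)
-/

open Polynomial

namespace GB

universe u

theorem RC_exists_two {ι : Type} [Fintype ι] [DecidableEq ι] (h3 : 3 ≤ Fintype.card ι) (i1 : ι) :
    ∃ i0 iD : ι, i0 ≠ i1 ∧ i0 ≠ iD ∧ i1 ≠ iD := by
  have h1 : 1 < (Finset.univ.erase i1 : Finset ι).card := by
    rw [Finset.card_erase_of_mem (Finset.mem_univ _), Finset.card_univ]
    omega
  obtain ⟨i0, h0, iD, hD, hne⟩ := Finset.one_lt_card.1 h1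
  exact ⟨i0, iD, (Finset.mem_erase.1 h0).1, hne, (Finset.mem_erase.1 hD).1.symm⟩

theorem RC_quot_zero (R : Type u) [CommRing R] :
    ringKrullDim (R ⧸ Ideal.span {(0 : R)}) = ringKrullDim R := by
  have h : Ideal.span {(0 : R)} = ⊥ := Ideal.span_singleton_eq_bot.2 rfl
  exact (ringKrullDim_eq_of_ringEquiv (Ideal.quotEquivOfEq h)).trans
    (ringKrullDim_eq_of_ringEquiv (RingEquiv.quotientBot R))

theorem RC_loop (hRL : RL_stmt.{u}) (R : Type u) [CommRing R] [IsNoetherianRing R] [IsLocalRing R]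
    (D : ℕ) (hD : 2 ≤ D) (hdim : ringKrullDim R ≤ D) (a : R)
    (ha : a ∈ IsLocalRing.maximalIdeal R) (hnil : ¬ IsNilpotent a)
    (ι : Type) [Fintype ι] [DecidableEq ι] (hcard : Fintype.card ι = D + 1)
    (i0 i1 iD : ι) (h01 : i0 ≠ i1) (h0D : i0 ≠ iD) (h1D : i1 ≠ iD) (m : ℕ) (hm : 1 ≤ m) :
    ∀ (v : ι → R[X]), Um v → RState a i0 iD v m →
      ∃ v' : ι → R[X], EEq v v' ∧ RState a i0 iD v' 1 := by
  induction m, hm using Nat.le_induction with
  | base => exact fun v _ hs => ⟨v, EEq.refl v, hs⟩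
  | succ n hn ih =>
    intro v hv hs
    obtain ⟨v1, h1, h2⟩ := hRL R D hD hdim a ha hnil ι hcard v hv i0 i1 iD h01 h0D h1D (n + 1)
      (by omega) hs
    obtain ⟨v2, h3, h4⟩ := ih v1 (h1.um hv) h2
    exact ⟨v2, h1.trans h3, h4⟩

theorem RC_bad_prime {R : Type u} [CommRing R] {D : ℕ} {p : Ideal R} (hp : p ∈ Bad R D) :
    p.IsPrime := hp.1.1.1

theorem RC (hTA : TA_stmt.{u}) (hBP : BP_stmt.{u}) (hBQ : BQ_stmt.{u}) (hRS : RS_stmt.{u})
    (hRL : RL_stmt.{u}) (hRF : RF_stmt.{u}) : RC_stmt.{u} := by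
  intro R _ _ _ D hD hdim ι _ _ hcard v hv i1
  have h3 : 3 ≤ Fintype.card ι := by omega
  obtain ⟨i0, iD, h01, h0D, h1D⟩ := RC_exists_two h3 i1
  by_cases hd : ringKrullDim R = D
  · obtain ⟨hfin, hne, a, ha, hap⟩ := hBQ R D (by omega)
    obtain ⟨p0, hp0⟩ := hne hd
    have hnil : ¬ IsNilpotent a := by
      rintro ⟨n, hn⟩
      have hp0' : p0.IsPrime := RC_bad_prime hp0
      exact hap p0 hp0 (hp0'.mem_of_pow_mem n (hn ▸ p0.zero_mem))
    have hda := hBP R D (by omega) hdim a hap
    obtain ⟨v1, m, h1, hm, hs1⟩ := hRS R D hD hdim a ha hnil hda ι hcard v hv i0 iD h0D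
    obtain ⟨v2, h2, hs2⟩ := RC_loop hRL R D hD hdim a ha hnil ι hcard i0 i1 iD h01 h0D h1D m hm
      v1 (h1.um hv) hs1
    obtain ⟨v3, c, h4, hc, hcp⟩ := hRF R a (Bad R D) hfin (fun p hp => RC_bad_prime hp)
      (fun p hp q hq hpq => le_antisymm hpq (hq.1.2 hp.1.1 hpq)) hap ι h3 v2
      (h2.um (h1.um hv)) i0 i1 iD h01 h0D h1D hs2
    have h5 : EEq v v3 := (h1.trans h2).trans h4
    by_cases hu : IsUnit c
    · have h6 : EEq (Pi.single i0 1) v3 := EEq_single_of_isUnit i0 i1 i0 h01.symm v3
        (by rw [hc]; exact hu.map C)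
      refine ⟨Function.update (Pi.single i0 1) i1 (C a), a, ?_, by simp, ha, hda⟩
      refine h5.trans (h6.symm.trans ?_)
      exact EEq_single_of_one i0 i0 _ (by rw [Function.update_of_ne h01]; simp)
    · exact ⟨v3, c, h5, hc, (IsLocalRing.mem_maximalIdeal c).2 hu, hBP R D (by omega) hdim c hcp⟩
  · have hlt : ringKrullDim R < D := lt_of_le_of_ne hdim hd
    have h1 : ringKrullDim R + 1 ≤ D := by
      have hbot : ringKrullDim R ≠ ⊥ := ringKrullDim_ne_bot
      obtain ⟨x, hx⟩ := WithBot.ne_bot_iff_exists.1 hbot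
      rw [← hx] at hlt ⊢
      have hlt2 : x < (D : ℕ∞) := by exact_mod_cast hlt
      have h2 : x + 1 ≤ (D : ℕ∞) := Order.add_one_le_of_lt hlt2
      exact_mod_cast h2
    have h2 : ringKrullDim R + 2 ≤ Fintype.card ι := by
      rw [hcard]
      have : ringKrullDim R + 2 = ringKrullDim R + 1 + 1 := by
        rw [add_assoc]; norm_num
      rw [this]
      push_cast
      gcongr
    have h4 := hTA R ι h3 h2 v hv i0
    refine ⟨Pi.single i0 1, 0, h4.symm, by simp [h01.symm], Ideal.zero_mem _, ?_⟩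
    rw [RC_quot_zero]
    exact h1

/-! ### RCS -/

theorem RCS_um {A B : Type*} [CommRing A] [CommRing B] {ι κ : Type*} [Fintype ι] [Fintype κ]
    (f : A →+* B) (u : ι → A) (c : κ → A) (hc : ∀ k, f (c k) = 0) (h : Um (Sum.elim u c)) :
    Um (fun i => f (u i)) := by
  obtain ⟨w, hw⟩ := h
  refine ⟨fun i => f (w (Sum.inl i)), ?_⟩
  have h1 := congrArg f hw
  rw [map_one, dotProduct, Fintype.sum_sum_type, map_add, map_sum, map_sum] at h1
  simp only [Sum.elim_inl, Sum.elim_inr, map_mul, hc, zero_mul, Finset.sum_const_zero,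
    add_zero] at h1
  exact h1

theorem RCS_dim {R : Type u} [CommRing R] (c0 : R) {k : ℕ} (c : Fin k → R) (cc : Fin (k + 1) → R)
    (hcc : Set.range cc = Set.range c ∪ {c0}) :
    ringKrullDim (R ⧸ Ideal.span (Set.range cc)) =
      ringKrullDim ((R ⧸ Ideal.span {c0}) ⧸
        Ideal.span (Set.range fun j => Ideal.Quotient.mk (Ideal.span {c0}) (c j))) := by
  have h1 : Ideal.span (Set.range fun j => Ideal.Quotient.mk (Ideal.span {c0}) (c j)) =
      (Ideal.span (Set.range c)).map (Ideal.Quotient.mk (Ideal.span {c0})) := by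
    rw [Ideal.map_span, ← Set.range_comp]
    rfl
  have h2 : Ideal.span (Set.range cc) = Ideal.span {c0} ⊔ Ideal.span (Set.range c) := by
    rw [hcc, Ideal.span_union, sup_comm]
  rw [ringKrullDim_eq_of_ringEquiv (Ideal.quotEquivOfEq h2),
    ringKrullDim_eq_of_ringEquiv (Ideal.quotEquivOfEq h1)]
  exact (ringKrullDim_eq_of_ringEquiv (DoubleQuot.quotQuotEquivQuotSup _ _)).symm

theorem RCS_add_one_le {x : WithBot ℕ∞} {k : ℕ} (h : x + 1 ≤ ((k + 1 : ℕ) : WithBot ℕ∞)) :
    x ≤ (k : ℕ) := by
  induction x using WithBot.recBotCoe with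
  | bot => exact bot_le
  | coe x =>
    have h1 : x + 1 ≤ ((k + 1 : ℕ) : ℕ∞) := by exact_mod_cast h
    have h2 : x ≤ (k : ℕ∞) := by
      have h3 : x + 1 ≤ (k : ℕ∞) + 1 := by simpa using h1
      exact (ENat.add_le_add_iff_right ENat.one_ne_top).1 h3
    exact_mod_cast h2

theorem RCS (hRC : RC_stmt.{u}) : RCS_stmt.{u} := by
  intro k
  induction k with
  | zero =>
    intro R _ _ _ hdim v _
    refine ⟨fun i => v (Sum.inl i), fun j => j.elim0, ?_, fun j => j.elim0, ?_⟩
    · have : (Sum.elim (fun i => v (Sum.inl i)) fun j : Fin 0 => C ((j.elim0 : R))) = v := by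
        ext1 j
        cases j with
        | inl j => rfl
        | inr j => exact j.elim0
      rw [this]
      exact EEq.refl v
    · have h1 : Ideal.span (Set.range fun j : Fin 0 => (j.elim0 : R)) = ⊥ := by
        rw [Set.range_eq_empty, Ideal.span_empty]
      rw [(ringKrullDim_eq_of_ringEquiv (Ideal.quotEquivOfEq h1)).trans
        (ringKrullDim_eq_of_ringEquiv (RingEquiv.quotientBot R))]
      simpa using hdim
  | succ k ih =>
    intro R _ _ _ hdim v hv
    obtain ⟨v1, c0, h1, h2, h3, h4⟩ := hRC R (k + 3) (by omega) (by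
      refine hdim.trans (le_of_eq ?_)
      rfl) (Fin 3 ⊕ Fin (k + 1)) (by simp; omega) v hv (Sum.inr (Fin.last k))
    set I : Ideal R := Ideal.span {c0} with hI
    have hIm : I ≤ IsLocalRing.maximalIdeal R := by
      rw [hI, Ideal.span_singleton_le_iff_mem]
      exact h3
    have hInt : Nontrivial (R ⧸ I) := Ideal.Quotient.nontrivial_iff.2 (fun h => by
      rw [h] at hIm
      exact (IsLocalRing.maximalIdeal.isMaximal R).ne_top (top_le_iff.1 hIm))
    have hloc : IsLocalRing (R ⧸ I) :=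
      IsLocalRing.of_surjective' (Ideal.Quotient.mk I) Ideal.Quotient.mk_surjective
    let e : (Fin 3 ⊕ Fin k) ⊕ Fin 1 ≃ Fin 3 ⊕ Fin (k + 1) :=
      (Equiv.sumAssoc _ _ _).trans (Equiv.sumCongr (Equiv.refl _) finSumFinEquiv)
    let u : Fin 3 ⊕ Fin k → R[X] := fun i => v1 (e (Sum.inl i))
    have hlast : finSumFinEquiv (Sum.inr (0 : Fin 1)) = Fin.last k := by
      simp [finSumFinEquiv, Fin.ext_iff]
    have hu : v1 ∘ e = Sum.elim u (fun _ : Fin 1 => C c0) := by
      ext1 i
      cases i with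
      | inl i => rfl
      | inr i =>
        have : e (Sum.inr i) = Sum.inr (Fin.last k) := by
          rw [Subsingleton.elim i 0]
          change Sum.inr (finSumFinEquiv (Sum.inr (0 : Fin 1))) = _
          rw [hlast]
        simp only [Function.comp_apply, this, h2, Sum.elim_inr]
    let φ : R[X] →+* (R ⧸ I)[X] := Polynomial.mapRingHom (Ideal.Quotient.mk I)
    have hφs : Function.Surjective φ :=
      Polynomial.map_surjective _ Ideal.Quotient.mk_surjective
    have hc0 : φ (C c0) = 0 := by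
      change (C c0).map (Ideal.Quotient.mk I) = 0
      rw [Polynomial.map_C, Ideal.Quotient.eq_zero_iff_mem.2 (Ideal.mem_span_singleton_self c0),
        C_0]
    have hker : RingHom.ker φ ≤ Ideal.span (Set.range fun _ : Fin 1 => C c0) := by
      change RingHom.ker (Polynomial.mapRingHom (Ideal.Quotient.mk I)) ≤ _
      rw [Polynomial.ker_mapRingHom, Ideal.mk_ker, hI, Ideal.map_span, Set.image_singleton,
        Set.range_const]
    have hv1e : Um (Sum.elim u (fun _ : Fin 1 => C c0)) := hu ▸ ((h1.um hv).comp_equiv e)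
    have hφu : Um (fun i => φ (u i)) := RCS_um φ u _ (fun _ => hc0) hv1e
    have hd1 : ringKrullDim (R ⧸ I) ≤ ((k + 2 : ℕ) : WithBot ℕ∞) := RCS_add_one_le h4
    obtain ⟨wb, cb, h5, h6, h7⟩ := ih (R ⧸ I) hd1 (fun i => φ (u i)) hφu
    choose w hw using fun i => hφs (wb i)
    choose c hc using fun j => Ideal.Quotient.mk_surjective (I := I) (cb j)
    let u' : Fin 3 ⊕ Fin k → R[X] := Sum.elim w fun j => C (c j)
    have hu' : (fun i => φ (u' i)) = Sum.elim wb fun j => C (cb j) := by
      ext1 i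
      cases i with
      | inl i => exact hw i
      | inr j =>
        change (C (c j)).map (Ideal.Quotient.mk I) = C (cb j)
        rw [Polynomial.map_C, hc]
    have h8 := E4 φ hφs (fun _ : Fin 1 => C c0) hker u u' (by rw [hu']; exact h5)
    have h9 : EEq v1 ((Sum.elim u' fun _ : Fin 1 => C c0) ∘ e.symm) := by
      have h10 := h8.comp_equiv e.symm
      rw [← hu] at h10
      have h11 : (v1 ∘ e) ∘ e.symm = v1 := by
        ext1 i
        simp
      rwa [h11] at h10
    let cc : Fin (k + 1) → R := fun j => Sum.elim c (fun _ : Fin 1 => c0) (finSumFinEquiv.symm j)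
    have h12 : (Sum.elim u' fun _ : Fin 1 => C c0) ∘ e.symm = Sum.elim w fun j => C (cc j) := by
      ext1 i
      obtain ⟨i, rfl⟩ := e.surjective i
      rw [Function.comp_apply, Equiv.symm_apply_apply]
      rcases i with (i | j) | l
      · rfl
      · change C (c j) = C (cc (finSumFinEquiv (Sum.inl j)))
        simp only [cc, Equiv.symm_apply_apply, Sum.elim_inl]
      · change C c0 = C (cc (finSumFinEquiv (Sum.inr l)))
        simp only [cc, Equiv.symm_apply_apply, Sum.elim_inr]
    refine ⟨w, cc, ?_, ?_, ?_⟩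
    · rw [← h12]
      exact h1.trans h9
    · intro j
      obtain ⟨j, rfl⟩ := finSumFinEquiv.surjective j
      cases j with
      | inl j =>
        simp only [cc, Equiv.symm_apply_apply, Sum.elim_inl]
        rw [IsLocalRing.mem_maximalIdeal, mem_nonunits_iff]
        intro hunit
        have h13 := h6 j
        rw [← hc j, IsLocalRing.mem_maximalIdeal, mem_nonunits_iff] at h13
        exact h13 (hunit.map _)
      | inr j =>
        simp only [cc, Equiv.symm_apply_apply, Sum.elim_inr]
        exact h3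
    · have hrange : Set.range cc = Set.range c ∪ {c0} := by
        ext x
        constructor
        · rintro ⟨j, rfl⟩
          obtain ⟨j, rfl⟩ := finSumFinEquiv.surjective j
          cases j with
          | inl j =>
            left
            exact ⟨j, by simp only [cc, Equiv.symm_apply_apply, Sum.elim_inl]⟩
          | inr j =>
            right
            simp only [cc, Equiv.symm_apply_apply, Sum.elim_inr, Set.mem_singleton_iff]
        · rintro (⟨j, rfl⟩ | hx)
          · exact ⟨finSumFinEquiv (Sum.inl j), by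
              simp only [cc, Equiv.symm_apply_apply, Sum.elim_inl]⟩
          · rw [Set.mem_singleton_iff] at hx
            subst hx
            exact ⟨finSumFinEquiv (Sum.inr 0), by
              simp only [cc, Equiv.symm_apply_apply, Sum.elim_inr]⟩
      rw [RCS_dim c0 c cc hrange]
      have h14 : (fun j => Ideal.Quotient.mk (Ideal.span {c0}) (c j)) = cb := funext hc
      rw [h14]
      exact h7

end GB
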