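import Pool.Agent.helper65.GB.Elem
import Pool.Agent.helper42.GB.LC

/-!
# Project gb, parts R.2 and R.3: statements (Theorem A, Roitman reduction)

`helper42`, problem MP_7933bc_al. Every statement is a `Prop` named `XX_stmt`; a module proves
`theorem XX (hypotheses of the form YY_stmt) : XX_stmt` in a file `Pool/Agent/<seat>/GB/XX.lean`,
namespace `GB`, auxiliary lemmas prefixed `XX_`.
-/

open Polynomial

namespace GB

universe u

/-- GP (helper65): general position. Successive prime avoidance: `h i` is chosen such that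
`x i + h i * s` avoids the finitely many primes which are minimal over the previous entries and do
not contain `s`. -/
def GP_stmt : Prop :=
  ∀ (R : Type u) [CommRing R] [IsNoetherianRing R] (κ : Type) [Fintype κ] (x : κ → R) (s : R),
    ∃ h : κ → R, ∀ p : Ideal R, p.IsPrime → (∀ i, x i + h i * s ∈ p) → s ∉ p →
      (Fintype.card κ : ℕ∞) ≤ p.height

/-- O2 (helper44): if `a` is a unit modulo the entry `v l`, another entry `v i` may be multiplied
by `a ^ 2`. -/
def O2_stmt : Prop :=
  ∀ (A : Type u) [CommRing A] (ι : Type) [Fintype ι] [DecidableEq ι], 3 ≤ Fintype.card ι →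
    ∀ (v : ι → A), Um v → ∀ (i l : ι), l ≠ i → ∀ (a b c : A), a * b = 1 + c * v l →
      EEq v (Function.update v i (a ^ 2 * v i))

/-- MON (Suslin): over a local ring a unimodular row of length at least 3 with a monic entry is
elementary equivalent to a unit vector. Induction on the degree `k` of the monic entry: reduce the
other entries to degree `< k` (subtract multiples of the monic entry, `Polynomial.modByMonic`); if
`k > 0`, one of them, say `v j`, has a unit coefficient (otherwise the monic entry would be a unit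
modulo the maximal ideal); then the ideal `(v i, v j)` contains a monic polynomial `g` of degree
`k - 1` (coefficients of `X^(k-1)` of the elements of degree `< k` of this ideal form an ideal of
`R`, which contains all coefficients of `v j`: replace `r` by `X r - (coeff r (k-1)) v i`), and
`v l + (1 - coeff (v l) (k-1)) g` is monic of degree `k - 1` for a third index `l`. -/
def MON_stmt : Prop :=
  ∀ (R : Type u) [CommRing R] [IsLocalRing R] (ι : Type) [Fintype ι] [DecidableEq ι],
    3 ≤ Fintype.card ι → ∀ (v : ι → R[X]), Um v → ∀ (i : ι), (v i).Monic →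
      ∀ j : ι, EEq (Pi.single j 1) v

/-- TA (Theorem A): transitivity. `GP_stmt` over `R[X]` with `s = v j` and the other entries, then
the ideal `J` generated by the new entries `≠ j` has height `≥ card ι - 1 > dim R`, so it contains
a monic polynomial `f` (`LC_monic`; the primes containing `J` do not contain `v j`), add `X ^ N f`
to the entry `j`, then `MON_stmt`. -/
def TA_stmt : Prop :=
  ∀ (R : Type u) [CommRing R] [IsNoetherianRing R] [IsLocalRing R]
    (ι : Type) [Fintype ι] [DecidableEq ι], 3 ≤ Fintype.card ι →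
    ringKrullDim R + 2 ≤ Fintype.card ι → ∀ (v : ι → R[X]), Um v →
      ∀ j : ι, EEq (Pi.single j 1) v

/-- the bad primes: the minimal primes of `R` with `dim R/p ≥ D`. -/
def Bad (R : Type u) [CommRing R] (D : ℕ) : Set (Ideal R) :=
  {p | p ∈ minimalPrimes R ∧ (D : WithBot ℕ∞) ≤ ringKrullDim (R ⧸ p)}

/-- BP: an element outside the bad primes cuts down the dimension. A chain of primes of `R` which
contain `c`, of length `n`: if the smallest one is minimal, it is not bad, so `n < D`; otherwise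
the chain can be prolonged, `n + 1 ≤ D`. -/
def BP_stmt : Prop :=
  ∀ (R : Type u) [CommRing R] (D : ℕ), 1 ≤ D → ringKrullDim R ≤ D → ∀ c : R,
    (∀ p ∈ Bad R D, c ∉ p) → ringKrullDim (R ⧸ Ideal.span {c}) + 1 ≤ D

/-- BQ: prime avoidance, an element of the maximal ideal outside the bad primes; the set of bad
primes is finite, and nonempty if `dim R = D`. -/
def BQ_stmt : Prop :=
  ∀ (R : Type u) [CommRing R] [IsNoetherianRing R] [IsLocalRing R] (D : ℕ), 1 ≤ D →
    (Bad R D).Finite ∧ (ringKrullDim R = D → (Bad R D).Nonempty) ∧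
      ∃ a ∈ IsLocalRing.maximalIdeal R, ∀ p ∈ Bad R D, a ∉ p

/-- the state of Roitman's algorithm: the entry `i0` has degree `m` and its leading coefficient is a
power of `a`, the entry `iD` (the guard) is congruent to one modulo `a`. -/
def RState {R : Type u} [CommRing R] {ι : Type} (a : R) (i0 iD : ι) (v : ι → R[X]) (m : ℕ) :
    Prop :=
  (v i0).natDegree = m ∧ (∃ k : ℕ, (v i0).leadingCoeff = a ^ k) ∧ C a ∣ v iD - 1

/-- RS: start of the algorithm. 1. `TA_stmt` over `R/a`, lifted with `EEq_lift`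
(`Polynomial.mapRingHom (Ideal.Quotient.mk _)`): we may assume `v iD ≡ 1`, `v i ≡ 0` modulo `a`
for `i ≠ iD`. 2. `GP_stmt` over `R[X]`, `s = C a * v iD`, `x i = v i` for `i ≠ iD`;
`v i := v i + a h_i v iD`; `J` the ideal generated by the new `v i`, `i ≠ iD`. Then
`a ∈ radical J.leadingCoeff`: let `q ∌ a` be a prime containing `J.leadingCoeff`, `P` a minimal
prime over `J` with `P.leadingCoeff ≤ q` (`LC_exists_minimal`), `C a ∉ P`, `v iD ∉ P`, so
`D ≤ P.height ≤ q.height` (`LC_prime`), but `q < maximalIdeal`, `q.height < D`. So there is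
`f ∈ J` with `f.leadingCoeff = a ^ k`, `C a ∣ f`. 3. `v iD += X ^ N f`, then
`v i0 += C a X ^ N' v iD`. -/
def RS_stmt : Prop :=
  ∀ (R : Type u) [CommRing R] [IsNoetherianRing R] [IsLocalRing R] (D : ℕ), 2 ≤ D →
    ringKrullDim R ≤ D → ∀ a ∈ IsLocalRing.maximalIdeal R, ¬ IsNilpotent a →
    ringKrullDim (R ⧸ Ideal.span {a}) + 1 ≤ D →
    ∀ (ι : Type) [Fintype ι] [DecidableEq ι], Fintype.card ι = D + 1 →
    ∀ (v : ι → R[X]), Um v → ∀ i0 iD : ι, i0 ≠ iD →
      ∃ (v' : ι → R[X]) (m : ℕ), EEq v v' ∧ 1 ≤ m ∧ RState a i0 iD v' m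

/-- RL: one step of the loop (degree `m ≥ 2` to `m - 1`).
Let `n = natDegree (v i1)`, `δ = resultant (v i0) (v i1) m n = P v_1 + Q v_0`
(`Polynomial.exists_mul_add_mul_eq_C_resultant`). Pseudo-division: `a ^ K v_j = q_j v_0 + r_j`,
`degree r_j < m` for `j ≠ i0, i1`. `GP_stmt` over `R` for the `(D-1) m ≥ D` coefficients of the
`r_j`, `s = a ^ (K+1) δ`: `h_ji`; put `v'_j = v_j + a H_j P v_1`, `H_j = ∑ h_ji X ^ i`
(`EEq_add_others`), `r'_j = r_j + s H_j`, `a ^ K v'_j ≡ r'_j` modulo `v_0`. A prime `p ∌ a` of `R`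
has height `< D`, so if it contains all coefficients of the `r'_j` it contains `δ`; over the
fraction field of `R/p`, `v_0` and `v_1` are not coprime (`resultant_map_map`,
`resultant_add_right_deg`, `resultant_ne_zero`) and `v_0` divides all `v'_j`: contradiction
to `Um v'`. So `a ^ L` is in the ideal generated by the coefficients of the `r'_j`.
Let `I = (v_0, v'_j : j ≠ i0, i1)`, `𝔩` the ideal of the coefficients of `X ^ (m-1)` of the elements
of `I` of degree `< m`. By induction on `t`, `a ^ (k t) * coeff r (m-1-t) ∈ 𝔩` for `r ∈ I` of degree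
`< m` (use `a ^ k X r - coeff r (m-1) v_0`). So `a ^ L' ∈ 𝔩`: `h ∈ I` of degree `< m` with
`coeff h (m-1) = a ^ L'`. With `a ^ K1 v_1 = q v_0 + r_1`, `b = coeff r_1 (m-1)`, `2 N ≥ K1 + L'`:
replace `v_1` by `a ^ (2N) v_1` (`O2_stmt` N times, guard `iD`) and add a combination of the other
entries: `a ^ (2N-K1) r_1 + a ^ (2N-K1-L') (1-b) h`, of degree `m - 1` and leading coefficient
`a ^ (2N-K1)` (nonzero as `a` is not nilpotent). Exchange the entries `i0` and `i1`
(`EEq_swap`). -/
def RL_stmt : Prop :=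
  ∀ (R : Type u) [CommRing R] [IsNoetherianRing R] [IsLocalRing R] (D : ℕ), 2 ≤ D →
    ringKrullDim R ≤ D → ∀ a ∈ IsLocalRing.maximalIdeal R, ¬ IsNilpotent a →
    ∀ (ι : Type) [Fintype ι] [DecidableEq ι], Fintype.card ι = D + 1 →
    ∀ (v : ι → R[X]), Um v → ∀ i0 i1 iD : ι, i0 ≠ i1 → i0 ≠ iD → i1 ≠ iD →
    ∀ m : ℕ, 2 ≤ m → RState a i0 iD v m →
      ∃ v' : ι → R[X], EEq v v' ∧ RState a i0 iD v' (m - 1)

/-- RF: end of the algorithm (degree one). Pseudo-division: `a ^ K v_j = q_j v_0 + C ρ_j` for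
`j ≠ i0`. For `p ∈ B` some `ρ_j ∉ p` (otherwise `v_0` divides all entries over the fraction field of
`R/p`). Choose `e_j` with `c = ρ_1 + ∑_{j ≠ i0, i1} e_j ρ_j` outside all `p ∈ B` (successively: `e_j`
in the `p ∈ B` which do not contain the partial sum and not in the others). Multiply `v_1` by
`a ^ (2K)` (`O2_stmt`, guard `iD`) and add `∑ a ^ (2K) e_j v_j` and a multiple of `v_0`: the entry
becomes `C (a ^ K c)`. -/
def RF_stmt : Prop :=
  ∀ (R : Type u) [CommRing R] (a : R) (B : Set (Ideal R)), B.Finite →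
    (∀ p ∈ B, p.IsPrime) → (∀ p ∈ B, ∀ q ∈ B, p ≤ q → p = q) → (∀ p ∈ B, a ∉ p) →
    ∀ (ι : Type) [Fintype ι] [DecidableEq ι], 3 ≤ Fintype.card ι →
    ∀ (v : ι → R[X]), Um v → ∀ i0 i1 iD : ι, i0 ≠ i1 → i0 ≠ iD → i1 ≠ iD →
    RState a i0 iD v 1 →
      ∃ (v' : ι → R[X]) (c : R), EEq v v' ∧ v' i1 = C c ∧ ∀ p ∈ B, c ∉ p

/-- RC: Roitman reduction, one constant. -/
def RC_stmt : Prop :=
  ∀ (R : Type u) [CommRing R] [IsNoetherianRing R] [IsLocalRing R] (D : ℕ), 2 ≤ D →
    ringKrullDim R ≤ D →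
    ∀ (ι : Type) [Fintype ι] [DecidableEq ι], Fintype.card ι = D + 1 →
    ∀ (v : ι → R[X]), Um v → ∀ i1 : ι,
      ∃ (v' : ι → R[X]) (c : R), EEq v v' ∧ v' i1 = C c ∧ c ∈ IsLocalRing.maximalIdeal R ∧
        ringKrullDim (R ⧸ Ideal.span {c}) + 1 ≤ D

/-- RCS: Roitman reduction, all constants. -/
def RCS_stmt : Prop :=
  ∀ (k : ℕ) (R : Type u) [CommRing R] [IsNoetherianRing R] [IsLocalRing R],
    ringKrullDim R ≤ (k + 2 : ℕ) →
    ∀ (v : Fin 3 ⊕ Fin k → R[X]), Um v →
      ∃ (w : Fin 3 → R[X]) (c : Fin k → R), EEq v (Sum.elim w fun j => C (c j)) ∧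
        (∀ j, c j ∈ IsLocalRing.maximalIdeal R) ∧
        ringKrullDim (R ⧸ Ideal.span (Set.range c)) ≤ 2

end GB
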